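import Pool.Agent.H889Z.TarFive

set_option autoImplicit false

namespace Pool.Agent.Results.MP_01d39a_al.APowersFive

open Pool.Agent.H718Z.CostDefs

/-- Let `G` be generated by a finite set `S` and let `a` have infinite order. Assume that for
every `s ∈ S` and every finite subset `U` of the subgroup generated by `a` and `s`, the subgroups
generated by the conjugates `u a ^ n u⁻¹`, `u ∈ U`, have trivial intersection over `n ≥ 1`. If `G`
has cost greater than 1, then `G` has a paradoxical decomposition with at most 5 pieces. -/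
theorem result : ∀ (G : Type) [Group G] (S : Finset G) (a : G),
    Subgroup.closure (S : Set G) = ⊤ → ¬ IsOfFinOrder a →
    (∀ s ∈ S, ∀ U : Finset G, (∀ u ∈ U, u ∈ Subgroup.closure ({a, s} : Set G)) →
      ∀ g : G, g ≠ 1 → ∃ n : ℕ, 0 < n ∧
        g ∉ Subgroup.closure {x : G | ∃ u ∈ U, x = u * a ^ n * u⁻¹}) →
    1 < groupCost G →
    ∃ m n : ℕ, m + n ≤ 5 ∧
      ∃ (A : Fin m → Set G) (B : Fin n → Set G) (g : Fin m → G) (h : Fin n → G),
        (∀ i j, i ≠ j → Disjoint (A i) (A j)) ∧
        (∀ i j, i ≠ j → Disjoint (B i) (B j)) ∧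
        (∀ i j, Disjoint (A i) (B j)) ∧
        (⋃ i, (fun x : G => g i * x) '' A i) = Set.univ ∧
        (⋃ j, (fun x : G => h j * x) '' B j) = Set.univ :=
  fun _ _ S a hS ha hs hc => ⟨2, 3, le_rfl, Pool.Agent.H889Z.Tar.five_star S hS a ha hs hc⟩

end Pool.Agent.Results.MP_01d39a_al.APowersFive
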